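import Pool.Agent.Helper93.HZ.Blow
import Pool.Agent.Helper93.HZ.Lib

/-! # HZ: KB (6.10)

Every orbit of good components of the graph of points gives an orbit of free darts of the resolved
complex with a free first endpoint. -/

set_option autoImplicit false

open MulAction Pointwise

namespace Pool.Agent.Helper93.HZ

open Ctx

variable {G : Type} [Group G]

/-! ## Locations -/

/-- location of a token -/
def kbLoc {U V : Type} : Tk U V → Set U
  | .e u w _ _ => {u, w}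
  | .l u w _ => {u, w}

theorem kb_loc_eq (hRLOC : ST_RLOC) {D : Setup G} {K : Cx G} {P : Pts D K} (Q : Thr D K P)
    (τ τ' : Tk D.U K.V) (h : tk Q τ = tk Q τ') : kbLoc τ = kbLoc τ' := by
  obtain ⟨h1, h2, h3, -⟩ := hRLOC G D K P Q
  cases τ with
  | e u w x y =>
    cases τ' with
    | e u' w' x' y' => exact h1 _ _ _ _ _ _ _ _ h
    | l u' w' v' => exact (h2 _ _ _ _ _ _ _ h.symm).symm
  | l u w v =>
    cases τ' with
    | e u' w' x' y' => exact h2 _ _ _ _ _ _ _ h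
    | l u' w' v' => exact h3 _ _ _ _ _ _ h

theorem kb_loc_smul {D : Setup G} {K : Cx G} (g : G) (τ : Tk D.U K.V) :
    kbLoc (g • τ) = (fun u => g • u) '' kbLoc τ := by
  cases τ with
  | e u w x y =>
    show ({g • u, g • w} : Set D.U) = _
    simp only [kbLoc, Set.image_pair]
  | l u w v =>
    show ({g • u, g • w} : Set D.U) = _
    simp only [kbLoc, Set.image_pair]

/-! ## Elliptic vertices -/

theorem kb_ell (hTFD : ST_TFD) {D : Setup G} {K : Cx G} (P : Pts D K) {x y : K.V}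
    (hx : EllV D K x) (h : ¬ Fr K x y) : EllV D K y := by
  by_contra hy
  obtain ⟨-, -, ⟨z, k, hz, hzo, -, -⟩, -⟩ := P.hyp y hy
  unfold Fr at h
  push Not at h
  obtain ⟨g, hgx, hgy, hg1⟩ := h
  have hg : g ∈ Subgroup.zpowers z := by
    rw [← hz]; exact hgy
  obtain ⟨n, hn⟩ := Subgroup.mem_zpowers_iff.1 hg
  obtain ⟨u, hu⟩ := hx
  have h1 : z ^ n • u = u := by rw [hn]; exact hu g hgx
  have hn0 : n ≠ 0 := by
    rintro rfl
    apply hg1
    rw [← hn, zpow_zero]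
  have h2 : z ^ n.natAbs • u = u := by
    rcases Int.natAbs_eq n with h | h
    · rw [h, zpow_natCast] at h1
      exact h1
    · rw [h, zpow_neg, zpow_natCast, inv_smul_eq_iff] at h1
      exact h1.symm
  obtain ⟨u', hu'⟩ := (hTFD G D z).1 n.natAbs (Int.natAbs_pos.2 hn0) ⟨u, h2⟩
  apply hy
  refine ⟨u', fun k hk => ?_⟩
  have h3 : k ∈ Subgroup.zpowers z := by
    rw [← hz]; exact hk
  have h4 : Subgroup.zpowers z ≤ stabilizer G u' := by
    rw [Subgroup.zpowers_le]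
    exact hu'
  exact h4 h3

/-! ## Cluster values -/

open Classical in
/-- the cluster node of `v` over `(u,w)` -/
noncomputable def kbCv (X : Ctx G) (v : X.V) (u w : X.U) : Option X.NP :=
  if FT X.D X.K v u w then some (.inr (cl X.D X.K v, u, w)) else none

theorem kb_cv_some {X : Ctx G} {v : X.V} {u w : X.U} {n : X.NP} :
    kbCv X v u w = some n ↔ FT X.D X.K v u w ∧ n = .inr (cl X.D X.K v, u, w) := by
  unfold kbCv
  by_cases h : FT X.D X.K v u w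
  · rw [if_pos h]
    constructor
    · intro h1
      exact ⟨h, (Option.some.inj h1).symm⟩
    · rintro ⟨-, rfl⟩
      rfl
  · rw [if_neg h]
    constructor
    · intro h1
      cases h1
    · rintro ⟨h1, -⟩
      exact absurd h1 h

theorem kb_cv_eq (hCLU : ST_CLU) (X : Ctx G) {v v' : X.V} (h : TF X.D X.K v v') (u w : X.U) :
    kbCv X v' u w = kbCv X v u w := by
  have h1 : cl X.D X.K v' = cl X.D X.K v :=
    (hCLU G X.D X.K X.P X.nd v v' h.2.1 (Relation.ReflTransGen.single h)).2.1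
  unfold kbCv FT
  rw [h1]

theorem kb_pt2 (X : Ctx G) {x y : X.V} {u w : X.U}
    (h1 : ¬ (Fr X.K x y ∧ X.Hon x y u ∧ X.Hon x y w))
    (h2 : ¬ EllV X.D X.K x) (h3 : ¬ Fr X.K x y ∨ X.Dp x y u) :
    X.ptN x y u w = kbCv X x u w := by
  unfold ptN
  rw [if_neg h1, if_pos ⟨h2, h3⟩]
  rfl

theorem kb_pt3 (X : Ctx G) {x y : X.V} {u w : X.U}
    (h1 : ¬ (Fr X.K x y ∧ X.Hon x y u ∧ X.Hon x y w))
    (h2 : ¬ (¬ EllV X.D X.K x ∧ (¬ Fr X.K x y ∨ X.Dp x y u)))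
    (h3 : ¬ EllV X.D X.K y) (h4 : X.Dp y x w) :
    X.ptN x y u w = kbCv X y u w := by
  unfold ptN
  rw [if_neg h1, if_neg h2, if_pos ⟨h3, h4⟩]
  rfl

theorem kb_pt0 (X : Ctx G) {x y : X.V} {u w : X.U}
    (h1 : ¬ (Fr X.K x y ∧ X.Hon x y u ∧ X.Hon x y w))
    (h2 : EllV X.D X.K x) (h3 : EllV X.D X.K y) :
    X.ptN x y u w = none := by
  unfold ptN
  rw [if_neg h1, if_neg (fun h => h.1 h2), if_neg (fun h => h.1 h3)]

/-! ## Crossing -/

theorem kb_cross_ne {D : Setup G} {K : Cx G} {P : Pts D K} {x y : K.V} {u w : D.U}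
    (h : Cross P x y u w) : P.N x u ≠ w ∧ P.N y w ≠ u ∧ P.N x ≠ P.N y := by
  obtain ⟨h1, h2, h3⟩ := h
  have h4 : P.N x u ≠ w := fun h => ((P.fN x).2 u w h1).1 h h2
  refine ⟨h4, ((P.fN y).2 u w h1).1 h3, fun h => h4 ?_⟩
  rw [h]; exact h3

theorem kb_cross_onI {D : Setup G} {K : Cx G} {P : Pts D K} {x y : K.V} {u w : D.U}
    (h : Cross P x y u w) : OnI (P.N x) (P.N y) u ∧ OnI (P.N x) (P.N y) w := by
  obtain ⟨h1, h2, h3⟩ := kb_cross_ne h
  constructor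
  · intro h4
    exact absurd (h4.trans h.2.2) h1
  · intro h4
    exact absurd (h4.symm.trans h.2.1) h2

/-- a dart after the threshold -/
theorem kb_prev (hHON : ST_HON) (X : Ctx G) {x y : X.V} (hf : X.FC2 x y) {w : X.U} {k : ℕ}
    (hx : ¬ EllV X.D X.K x) (hw : w = (X.P.N x)^[k + 1] (X.Q.Q x y)) :
    X.P.M x w = (X.P.N x)^[k] (X.Q.Q x y) ∧ X.P.N x (X.P.M x w) = w ∧
      X.D.T.Adj (X.P.M x w) w ∧ ¬ X.Dp y x (X.P.M x w) := by
  obtain ⟨-, h2, h3, h4, h5, -, -, -, h9, -, -⟩ := hHON G X x y hf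
  have hf' : X.FC2 y x := ⟨X.K.symm _ _ hf.1, hf.2.1.symm, fun h => hf.2.2 h.symm⟩
  set u1 := (X.P.N x)^[k] (X.Q.Q x y) with hu1
  have hN : X.P.N x u1 = w := by
    rw [hw, Function.iterate_succ_apply']
  have hne : X.P.N x u1 ≠ X.P.M x u1 := by
    cases k with
    | zero => exact (X.Q.hyp x y hf.1 hf.2.1 hx hf.2.2).2
    | succ k => exact (h9 u1 ⟨hx, k, rfl⟩).1
  have hadj : X.D.T.Adj u1 w := by
    rcases (X.P.fN x).1 u1 with h | h
    · exact absurd h ((X.P.hyp x hx).1 u1)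
    · rwa [hN] at h
  have hM : X.P.M x w = u1 := by
    by_contra h
    have := ((X.P.fM x).2 u1 w hadj).2 h
    exact hne (hN.trans this.symm)
  rw [hM]
  refine ⟨rfl, hN, hadj, ?_⟩
  cases k with
  | zero =>
    have h6 : X.Hon y x u1 := (h4 _).1 h5
    exact (hHON G X y x hf').2.1 _ h6
  | succ k => exact h3 u1 ⟨hx, k, rfl⟩

open Classical in
theorem kb_val1 (hHON : ST_HON) (hTFD : ST_TFD) (X : Ctx G) {x y z : X.V} {u w : X.U}
    (ht : X.K.tri x y z) (h1 : Cross X.P x y u w) (h2 : Cross X.P x z u w)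
    (h3 : ¬ (Fr X.K x y ∧ X.Hon x y u)) :
    X.ptN x y u w = if EllV X.D X.K x then none else kbCv X x u w := by
  have h4 : ¬ (Fr X.K x y ∧ X.Hon x y u ∧ X.Hon x y w) := fun h => h3 ⟨h.1, h.2.1⟩
  obtain ⟨hn1, hn2, hn3⟩ := kb_cross_ne h1
  by_cases hF : Fr X.K x y
  · have hf : X.FC2 x y := ⟨X.K.tri_adj _ _ _ ht, hF, hn3⟩
    have hf' : X.FC2 y x := ⟨X.K.symm _ _ hf.1, hF.symm, fun h => hn3 h.symm⟩
    rcases ((hHON G X x y hf).1 u).1 (kb_cross_onI h1).1 with h | h | h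
    · exact absurd ⟨hF, h⟩ h3
    · rw [if_neg h.1, kb_pt2 X h4 h.1 (Or.inr h)]
    · exfalso
      obtain ⟨-, -, -, -, -, -, -, h8, -⟩ := hHON G X y x hf'
      have h9 := h8 z u (X.K.tri_swap _ _ _ ht) h
      exact hn1 (h9.1.trans h2.2.2)
  · by_cases hE : EllV X.D X.K x
    · rw [if_pos hE]
      exact kb_pt0 X h4 hE (kb_ell hTFD X.P hE hF)
    · rw [if_neg hE, kb_pt2 X h4 hE (Or.inl hF)]

open Classical in
theorem kb_val2 (hCLU : ST_CLU) (hHON : ST_HON) (hTFD : ST_TFD) (X : Ctx G) {x y z : X.V}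
    {u w : X.U} (ht : X.K.tri x y z) (h1 : Cross X.P y x u w) (h2 : Cross X.P z x u w)
    (h3 : ¬ (Fr X.K x y ∧ X.Hon x y w)) :
    X.ptN y x u w = if EllV X.D X.K x then none else kbCv X x u w := by
  obtain ⟨hn1, hn2, hn3⟩ := kb_cross_ne h1
  by_cases hF : Fr X.K x y
  · have hf : X.FC2 x y := ⟨X.K.tri_adj _ _ _ ht, hF, fun h => hn3 h.symm⟩
    have hf' : X.FC2 y x := ⟨X.K.symm _ _ hf.1, hF.symm, hn3⟩
    obtain ⟨q1, q2, q3, q4, q5, q6, q7, q8, q9, q10, q11⟩ := hHON G X x y hf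
    have h4 : ¬ (Fr X.K y x ∧ X.Hon y x u ∧ X.Hon y x w) :=
      fun h => h3 ⟨hF, (q4 _).2 h.2.2⟩
    have hI : OnI (X.P.N x) (X.P.N y) w := fun h => absurd (h.trans h1.2.1) hn2
    rcases (q1 w).1 hI with h | h | h
    · exact absurd ⟨hF, h⟩ h3
    · obtain ⟨-, k, hk⟩ := id h
      obtain ⟨p1, p2, p3, p4⟩ := kb_prev hHON X hf h.1 hk
      have hu : X.P.M x w = u := by
        rw [← (q9 w h).2]; exact h1.2.1
      rw [hu] at p4
      rw [if_neg h.1]
      refine kb_pt3 X h4 ?_ h.1 h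
      rintro ⟨-, h5 | h5⟩
      · exact h5 hF.symm
      · exact p4 h5
    · exfalso
      obtain ⟨-, -, -, -, -, -, -, h8, -⟩ := hHON G X y x hf'
      have h9 := h8 z w (X.K.tri_swap _ _ _ ht) h
      exact hn2 (h9.1.trans h2.2.1)
  · have hF' : ¬ Fr X.K y x := fun h => hF h.symm
    have h4 : ¬ (Fr X.K y x ∧ X.Hon y x u ∧ X.Hon y x w) := fun h => hF' h.1
    by_cases hE : EllV X.D X.K x
    · rw [if_pos hE]
      exact kb_pt0 X h4 (kb_ell hTFD X.P hE hF) hE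
    · have hE' : ¬ EllV X.D X.K y := fun h => hE (kb_ell hTFD X.P h hF')
      rw [if_neg hE, kb_pt2 X h4 hE' (Or.inl hF')]
      exact kb_cv_eq hCLU X ⟨X.K.tri_adj _ _ _ ht, hE, hE', hF⟩ u w

/-! ## The property of tokens -/

/-- the tokens of a good component -/
def kbGT (X : Ctx G) (C : Set X.NP) (u w : X.U) : Tk X.U X.V → Prop
  | .e a b x y => ((a = u ∧ b = w) ∨ (a = w ∧ b = u)) ∧ X.K.adj x y ∧
      ((Cross X.P x y u w ∧ ∃ n ∈ C, X.ptN x y u w = some n) ∨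
        (Cross X.P y x u w ∧ ∃ n ∈ C, X.ptN y x u w = some n))
  | .l a b v => ((a = u ∧ b = w) ∨ (a = w ∧ b = u)) ∧ ¬ EllV X.D X.K v ∧ Ax2 X.P v u w ∧
      FT X.D X.K v u w ∧ (Sum.inr (cl X.D X.K v, u, w) : X.NP) ∈ C

/-- `C` is closed under the bands and no band leads to `none` -/
def kbCl (X : Ctx G) (C : Set X.NP) : Prop := ∀ b ∈ X.BN,
  (∀ n ∈ C, X.sP b = some n → ∃ m ∈ C, X.tP b = some m)

theorem kb_cl_of_good {X : Ctx G} {n : X.NP} (h : goodR X.BN X.sP X.tP n) :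
    kbCl X (compR X.BN X.sP X.tP n) := by
  intro b hb m hm hs
  have h1 := (h.2 m hm b hb).1 hs
  obtain ⟨m', hm'⟩ := Option.isSome_iff_exists.1 h1
  refine ⟨m', ?_, hm'⟩
  exact Relation.ReflTransGen.tail hm ⟨b, hb, Or.inl ⟨hs, hm'⟩⟩

theorem kb_t1a (hHON : ST_HON) (hTFD : ST_TFD) (X : Ctx G) {C : Set X.NP} (hC : kbCl X C)
    {x y z : X.V} {u w : X.U} (ht : X.K.tri x y z) (h1 : Cross X.P x y u w)
    (h2 : Cross X.P x z u w) (h : ∃ n ∈ C, X.ptN x y u w = some n) :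
    ∃ n ∈ C, X.ptN x z u w = some n := by
  by_cases hb : (⟨x, y, z, u, true⟩ : Band G X) ∈ X.BN
  · obtain ⟨n, hn, hn2⟩ := h
    have hs : X.sP (⟨x, y, z, u, true⟩ : Band G X) = some n := by
      unfold sP
      simp only [if_true]
      rw [h1.2.2]; exact hn2
    obtain ⟨m, hm, hm2⟩ := hC _ hb n hn hs
    refine ⟨m, hm, ?_⟩
    unfold tP at hm2
    simp only [if_true] at hm2
    rw [h1.2.2] at hm2
    exact hm2
  · obtain ⟨hn1, hn2, hn3⟩ := kb_cross_ne h1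
    have h3 : ¬ ((Fr X.K x y ∧ X.Hon x y u) ∨ (Fr X.K x z ∧ X.Hon x z u)) := by
      intro h3
      apply hb
      refine ⟨ht, ?_, ?_, ?_, h3⟩
      · show X.P.N y u = X.P.N z u
        rw [h1.2.2, h2.2.2]
      · show X.P.N y u ≠ u
        rw [h1.2.2]
        exact h1.1.ne'
      · show X.P.N x u ≠ X.P.N y u
        rw [h1.2.2]
        exact hn1
    have e1 := kb_val1 hHON hTFD X ht h1 h2 (fun h => h3 (Or.inl h))
    have e2 := kb_val1 hHON hTFD X (X.K.tri_perm ht).2.2.2.1 h2 h1 (fun h => h3 (Or.inr h))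
    rw [e2, ← e1]
    exact h

theorem kb_t1b (hCLU : ST_CLU) (hHON : ST_HON) (hTFD : ST_TFD) (X : Ctx G) {C : Set X.NP}
    (hC : kbCl X C) {x y z : X.V} {u w : X.U} (ht : X.K.tri x y z) (h1 : Cross X.P y x u w)
    (h2 : Cross X.P z x u w) (h : ∃ n ∈ C, X.ptN y x u w = some n) :
    ∃ n ∈ C, X.ptN z x u w = some n := by
  by_cases hb : (⟨x, y, z, w, false⟩ : Band G X) ∈ X.BN
  · obtain ⟨n, hn, hn2⟩ := h
    have hs : X.sP (⟨x, y, z, w, false⟩ : Band G X) = some n := by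
      unfold sP
      simp only [Bool.false_eq_true, if_false]
      rw [h1.2.1]; exact hn2
    obtain ⟨m, hm, hm2⟩ := hC _ hb n hn hs
    refine ⟨m, hm, ?_⟩
    unfold tP at hm2
    simp only [Bool.false_eq_true, if_false] at hm2
    rw [h1.2.1] at hm2
    exact hm2
  · obtain ⟨hn1, hn2, hn3⟩ := kb_cross_ne h1
    have h3 : ¬ ((Fr X.K x y ∧ X.Hon x y w) ∨ (Fr X.K x z ∧ X.Hon x z w)) := by
      intro h3
      apply hb
      refine ⟨ht, ?_, ?_, ?_, h3⟩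
      · show X.P.N y w = X.P.N z w
        rw [h1.2.1, h2.2.1]
      · show X.P.N y w ≠ w
        rw [h1.2.1]
        exact h1.1.ne
      · show X.P.N x w ≠ X.P.N y w
        rw [h1.2.1]
        exact hn2
    have e1 := kb_val2 hCLU hHON hTFD X ht h1 h2 (fun h => h3 (Or.inl h))
    have e2 := kb_val2 hCLU hHON hTFD X (X.K.tri_perm ht).2.2.2.1 h2 h1
      (fun h => h3 (Or.inr h))
    rw [e2, ← e1]
    exact h

/-- a crossing dart whose node is the cluster node of `v` -/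
theorem kb_cvC {X : Ctx G} {C : Set X.NP} {v x y : X.V} {u w : X.U}
    (h : X.ptN x y u w = kbCv X v u w) :
    (∃ n ∈ C, X.ptN x y u w = some n) ↔
      (FT X.D X.K v u w ∧ (Sum.inr (cl X.D X.K v, u, w) : X.NP) ∈ C) := by
  rw [h]
  constructor
  · rintro ⟨n, hn, h1⟩
    obtain ⟨h2, rfl⟩ := kb_cv_some.1 h1
    exact ⟨h2, hn⟩
  · rintro ⟨h1, h2⟩
    exact ⟨_, h2, kb_cv_some.2 ⟨h1, rfl⟩⟩

theorem kb_step (hCLU : ST_CLU) (hHON : ST_HON) (hTFD : ST_TFD) (X : Ctx G) {C : Set X.NP}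
    (hC : kbCl X C) (u w : X.U) (τ τ' : Tk X.U X.V) (h : TRel X.Q τ τ') :
    kbGT X C u w τ ↔ kbGT X C u w τ' := by
  cases h with
  | swU a b x y =>
    constructor
    · rintro ⟨h1, h2⟩
      exact ⟨h1.symm.imp And.symm And.symm, h2⟩
    · rintro ⟨h1, h2⟩
      exact ⟨h1.symm.imp And.symm And.symm, h2⟩
  | swV a b x y =>
    constructor
    · rintro ⟨h1, h2, h3⟩
      exact ⟨h1, X.K.symm _ _ h2, h3.symm⟩
    · rintro ⟨h1, h2, h3⟩
      exact ⟨h1, X.K.symm _ _ h2, h3.symm⟩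
  | swL a b v =>
    constructor
    · rintro ⟨h1, h2⟩
      exact ⟨h1.symm.imp And.symm And.symm, h2⟩
    · rintro ⟨h1, h2⟩
      exact ⟨h1.symm.imp And.symm And.symm, h2⟩
  | t1 x y z a b h1 h2 h3 h4 h5 =>
    have key : ∀ y z : X.V, X.K.tri x y z → X.P.N y b = a → X.P.N z b = a →
        kbGT X C u w (.e a b x y) → kbGT X C u w (.e a b x z) := by
      intro y z ht hy hz hG
      obtain ⟨e1, -, e3⟩ := hG
      refine ⟨e1, (X.K.tri_adj' ht).2.2.2.2.2, ?_⟩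
      rcases e1 with ⟨rfl, rfl⟩ | ⟨rfl, rfl⟩
      · -- `y`, `z` on the side of `u`
        right
        have c1 : Cross X.P y x a b := ⟨h2, hy, h3⟩
        have c2 : Cross X.P z x a b := ⟨h2, hz, h3⟩
        rcases e3 with e3 | e3
        · exact absurd e3.1.2.1 (kb_cross_ne c1).2.1
        · exact ⟨c2, kb_t1b hCLU hHON hTFD X hC ht c1 c2 e3.2⟩
      · left
        have c1 : Cross X.P x y b a := ⟨h2.symm, h3, hy⟩
        have c2 : Cross X.P x z b a := ⟨h2.symm, h3, hz⟩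
        rcases e3 with e3 | e3
        · exact ⟨c2, kb_t1a hHON hTFD X hC ht c1 c2 e3.2⟩
        · exact absurd e3.1.2.1 (kb_cross_ne c1).2.1
    exact ⟨key y z h1 h4 h5, key z y (X.K.tri_perm h1).2.2.2.1 h5 h4⟩
  | t2 v y k h1 h2 h3 h4 =>
    have hf : X.FC2 v y := ⟨h1, h2, h4⟩
    have hf' : X.FC2 y v := ⟨X.K.symm _ _ h1, h2.symm, fun h => h4 h.symm⟩
    obtain ⟨q1, q2, q3, q4, q5, q6, q7, q8, q9, q10, q11⟩ := hHON G X v y hf
    set b := (X.P.N v)^[k + 1] (X.Q.Q v y) with hb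
    set a := (X.P.N v)^[k] (X.Q.Q v y) with ha
    have hD : X.Dp v y b := ⟨h3, k, hb⟩
    obtain ⟨p1, p2, p3, p4⟩ := kb_prev hHON X hf h3 hb
    rw [p1] at p2 p3 p4
    have hyb : X.P.N y b = a := by rw [(q9 b hD).2]; exact p1
    have c1 : Cross X.P v y b a := ⟨p3.symm, p2, hyb⟩
    have c2 : Cross X.P y v a b := ⟨p3, hyb, p2⟩
    have hax : Ax X.P v a b := ⟨p2, p1, by rw [p2]; exact p3.ne'⟩
    have e1 : X.ptN v y b a = kbCv X v b a :=
      kb_pt2 X (fun h => q2 b h.2.1 hD) h3 (Or.inr hD)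
    have e2 : X.ptN y v a b = kbCv X v a b := by
      refine kb_pt3 X (fun h => q2 b ((q4 _).2 h.2.2) hD) ?_ h3 hD
      rintro ⟨-, h5 | h5⟩
      · exact h5 h2.symm
      · exact p4 h5
    constructor
    · rintro ⟨g1, -, g3⟩
      rcases g1 with ⟨rfl, rfl⟩ | ⟨rfl, rfl⟩
      · rcases g3 with g3 | g3
        · exact absurd g3.1.2.1 (kb_cross_ne c2).2.1
        · obtain ⟨g4, g5⟩ := (kb_cvC e2).1 g3.2
          exact ⟨Or.inl ⟨rfl, rfl⟩, h3, Or.inl hax, g4, g5⟩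
      · rcases g3 with g3 | g3
        · obtain ⟨g4, g5⟩ := (kb_cvC e1).1 g3.2
          exact ⟨Or.inr ⟨rfl, rfl⟩, h3, Or.inr hax, g4, g5⟩
        · exact absurd g3.1.2.1 (kb_cross_ne c1).2.1
    · rintro ⟨g1, -, -, g4, g5⟩
      refine ⟨g1, h1, ?_⟩
      rcases g1 with ⟨rfl, rfl⟩ | ⟨rfl, rfl⟩
      · exact Or.inr ⟨c2, (kb_cvC e2).2 ⟨g4, g5⟩⟩
      · exact Or.inl ⟨c1, (kb_cvC e1).2 ⟨g4, g5⟩⟩
  | t3 v v' a b h1 h2 h3 h4 h5 h6 =>
    exfalso
    obtain ⟨u', hu'⟩ := X.nd v v' h1 h2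
    exact (X.P.hyp v h3).1 u' hu'
  | t4 v v' a b h1 h2 h3 h4 h5 h6 =>
    have hTF : TF X.D X.K v v' := ⟨h1, h4, h5, h3⟩
    obtain ⟨i1, i2⟩ := (hCLU G X.D X.K X.P X.nd v v' h4
      (Relation.ReflTransGen.single hTF)).2.2.2.1 hTF
    have hadj : X.D.T.Adj a b := by
      rcases (X.P.fN v).1 a with h | h
      · exact absurd h h6.2.2
      · rwa [h6.1] at h
    have hv'b : X.P.N v' b = a := by rw [i1]; exact h6.2.1
    have c1 : Cross X.P v v' b a := ⟨hadj.symm, h6.1, hv'b⟩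
    have c2 : Cross X.P v' v a b := ⟨hadj, hv'b, h6.1⟩
    have h3' : ¬ Fr X.K v' v := fun h => h3 h.symm
    have e1 : X.ptN v v' b a = kbCv X v b a :=
      kb_pt2 X (fun h => h3 h.1) h4 (Or.inl h3)
    have e2 : X.ptN v' v a b = kbCv X v a b := by
      rw [kb_pt2 X (fun h => h3' h.1) h5 (Or.inl h3')]
      exact kb_cv_eq hCLU X hTF a b
    constructor
    · rintro ⟨g1, -, g3⟩
      rcases g1 with ⟨rfl, rfl⟩ | ⟨rfl, rfl⟩
      · rcases g3 with g3 | g3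
        · exact absurd g3.1.2.1 (kb_cross_ne c2).2.1
        · obtain ⟨g4, g5⟩ := (kb_cvC e2).1 g3.2
          exact ⟨Or.inl ⟨rfl, rfl⟩, h4, Or.inl h6, g4, g5⟩
      · rcases g3 with g3 | g3
        · obtain ⟨g4, g5⟩ := (kb_cvC e1).1 g3.2
          exact ⟨Or.inr ⟨rfl, rfl⟩, h4, Or.inr h6, g4, g5⟩
        · exact absurd g3.1.2.1 (kb_cross_ne c1).2.1
    · rintro ⟨g1, -, -, g4, g5⟩
      refine ⟨g1, h1, ?_⟩
      rcases g1 with ⟨rfl, rfl⟩ | ⟨rfl, rfl⟩
      · exact Or.inr ⟨c2, (kb_cvC e2).2 ⟨g4, g5⟩⟩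
      · exact Or.inl ⟨c1, (kb_cvC e1).2 ⟨g4, g5⟩⟩

theorem kb_tk (hCLU : ST_CLU) (hHON : ST_HON) (hTFD : ST_TFD) (X : Ctx G) {C : Set X.NP}
    (hC : kbCl X C) (u w : X.U) (τ τ' : Tk X.U X.V) (h : tk X.Q τ = tk X.Q τ')
    (h1 : kbGT X C u w τ) : kbGT X C u w τ' := by
  have h2 : Quot.mk (TRel X.Q) τ = Quot.mk (TRel X.Q) τ' := Sum.inr.inj h
  have h3 := Quot.eqvGen_exact h2
  have h4 : ∀ a b, Relation.EqvGen (TRel X.Q) a b → (kbGT X C u w a ↔ kbGT X C u w b) := by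
    intro a b hab
    induction hab with
    | rel x y hxy => exact kb_step hCLU hHON hTFD X hC u w x y hxy
    | refl x => exact Iff.rfl
    | symm x y _ ih => exact ih.symm
    | trans x y z _ _ ih1 ih2 => exact ih1.trans ih2
  exact (h4 _ _ h3).1 h1

/-! ## Components -/

theorem kb_step_smul {X : Ctx G} (hG : GrH X.BN X.sP X.tP G X.NPs) (g : G) {p q : X.NP}
    (h : stepR X.BN X.sP X.tP p q) : stepR X.BN X.sP X.tP (g • p) (g • q) := by
  obtain ⟨y, hy, h⟩ := h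
  refine ⟨g • y, hG.smulY g y hy, ?_⟩
  rw [hG.sE g y hy, hG.tE g y hy]
  rcases h with ⟨h1, h2⟩ | ⟨h1, h2⟩
  · left
    rw [h1, h2]
    exact ⟨rfl, rfl⟩
  · right
    rw [h1, h2]
    exact ⟨rfl, rfl⟩

theorem kb_comp_smul {X : Ctx G} (hG : GrH X.BN X.sP X.tP G X.NPs) (g : G) (p : X.NP) :
    g • compR X.BN X.sP X.tP p = compR X.BN X.sP X.tP (g • p) := by
  have key : ∀ (g : G) (p q : X.NP), q ∈ compR X.BN X.sP X.tP p →
      g • q ∈ compR X.BN X.sP X.tP (g • p) := by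
    intro g p q h
    exact Relation.ReflTransGen.lift (fun n => g • n)
      (fun a b hab => kb_step_smul hG g hab) p q h
  ext n
  constructor
  · rintro ⟨m, hm, rfl⟩
    exact key g p m hm
  · intro h
    refine ⟨g⁻¹ • n, ?_, smul_inv_smul _ _⟩
    have := key g⁻¹ _ _ h
    rwa [inv_smul_smul] at this

theorem kb_comp_eq {X : Ctx G} {p q : X.NP} (h : q ∈ compR X.BN X.sP X.tP p) :
    compR X.BN X.sP X.tP q = compR X.BN X.sP X.tP p := by
  have hsym : ∀ a b : X.NP, stepR X.BN X.sP X.tP a b → stepR X.BN X.sP X.tP b a := by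
    rintro a b ⟨y, hy, h⟩
    exact ⟨y, hy, h.symm⟩
  have h' : p ∈ compR X.BN X.sP X.tP q := by
    have : Std.Symm (stepR X.BN X.sP X.tP) := ⟨hsym⟩
    exact Relation.ReflTransGen.stdSymm.symm _ _ h
  ext n
  exact ⟨fun hn => Relation.ReflTransGen.trans h hn, fun hn => Relation.ReflTransGen.trans h' hn⟩

/-- the first token of a node -/
structure kbTok (X : Ctx G) (n : X.NP) (u w : X.U) (τ : Tk X.U X.V) : Prop where
  adj : X.D.T.Adj u w
  gt : ∀ C : Set X.NP, n ∈ C → kbGT X C u w τ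
  loc : kbLoc τ = {u, w}
  back : ∀ (C : Set X.NP) (g : G), kbGT X C (g • u) (g • w) (g • τ) → g • n ∈ C

theorem kb_ptN_hon {X : Ctx G} {x y : X.V} {u w : X.U} (hf : X.FC2 x y)
    (h1 : X.Hon x y u) (h2 : X.Hon x y w) : X.ptN x y u w = some (.inl (x, y, u, w)) := by
  unfold ptN
  rw [if_pos ⟨hf.2.1, h1, h2⟩]

theorem kb_tok (hCLU : ST_CLU) (hGRP : ST_GRP) (X : Ctx G) {n : X.NP} (hn : n ∈ X.NPs) :
    ∃ u w τ, kbTok X n u w τ ∧
      ((∃ x y, X.K.adj x y ∧ Cross X.P x y u w ∧ τ = .e u w x y) ∨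
        (∃ v, ¬ EllV X.D X.K v ∧ Ax2 X.P v u w ∧ τ = .l u w v)) := by
  have hG := hGRP G X
  match n, hn with
  | .inl (x, y, u, w), hn =>
    refine ⟨u, w, .e u w x y, ?_, Or.inl ⟨x, y, hn.1.1, hn.2.1, rfl⟩⟩
    refine ⟨hn.2.1.1, ?_, rfl, ?_⟩
    · intro C hC
      exact ⟨Or.inl ⟨rfl, rfl⟩, hn.1.1,
        Or.inl ⟨hn.2.1, _, hC, kb_ptN_hon hn.1 hn.2.2.1 hn.2.2.2⟩⟩
    · intro C g hg
      obtain ⟨g1, g2, g3⟩ := hg
      have hn' : (Sum.inl (g • x, g • y, g • u, g • w) : X.NP) ∈ X.NPs := hG.smulX g _ hn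
      rcases g3 with ⟨g3, m, hm, hm2⟩ | g3
      · rw [kb_ptN_hon hn'.1 hn'.2.2.1 hn'.2.2.2] at hm2
        have := Option.some.inj hm2
        rw [← this] at hm
        exact hm
      · exact absurd g3.1.2.1 (kb_cross_ne hn'.2.1).2.1
  | .inr (S, u, w), hn =>
    obtain ⟨v, hS, hv, hax, hFT⟩ := hn
    refine ⟨u, w, .l u w v, ?_, Or.inr ⟨v, hv, hax, rfl⟩⟩
    refine ⟨?_, ?_, rfl, ?_⟩
    · rcases hax with h | h
      · rcases (X.P.fN v).1 u with h1 | h1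
        · exact absurd h1 h.2.2
        · rwa [h.1] at h1
      · rcases (X.P.fN v).1 w with h1 | h1
        · exact absurd h1 h.2.2
        · rw [h.1] at h1
          exact h1.symm
    · intro C hC
      rw [hS] at hC
      exact ⟨Or.inl ⟨rfl, rfl⟩, hv, hax, hFT, hC⟩
    · intro C g hg
      obtain ⟨g1, g2, g3, g4, g5⟩ := hg
      rw [← (hCLU G X.D X.K X.P X.nd v v hv Relation.ReflTransGen.refl).2.2.2.2.2 g] at g5
      rw [hS]
      exact g5

/-! ## Darts of the resolved complex over a vertex -/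

/-- `(p,q)` is a dart over `w` -/
def kbOv (X : Ctx G) (w : X.U) (p q : AV X.Q) : Prop :=
  (∃ x y, X.K.adj x y ∧ (X.P.N x = X.P.N y → ∃ u', X.P.N x u' = u') ∧
    OnI (X.P.N x) (X.P.N y) w ∧ p = pos X.Q x y w ∧ q = pos X.Q y x w) ∨
  (∃ v, ¬ EllV X.D X.K v ∧ X.P.N v w ≠ X.P.M v w ∧
    ((p = tk X.Q (.l w (X.P.N v w) v) ∧ q = tk X.Q (.l w (X.P.M v w) v)) ∨
      (q = tk X.Q (.l w (X.P.N v w) v) ∧ p = tk X.Q (.l w (X.P.M v w) v))))

theorem kb_ov_adj {X : Ctx G} {w : X.U} {p q : AV X.Q} (h : kbOv X w p q) : aadj X.Q p q := by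
  rcases h with ⟨x, y, h1, h2, h3, h4, h5⟩ | ⟨v, h1, h2, h3⟩
  · exact Or.inl ⟨x, y, w, h1, h2, h3, h4, h5⟩
  · exact Or.inr ⟨v, w, h1, h2, h3⟩

theorem kb_ov_smul {X : Ctx G} (g : G) {w : X.U} {p q : AV X.Q} (h : kbOv X w p q) :
    kbOv X (g • w) (g • p) (g • q) := by
  rcases h with ⟨x, y, h1, h2, h3, h4, h5⟩ | ⟨v, h1, h2, h3⟩
  · left
    refine ⟨g • x, g • y, X.K.smul_adj g _ _ h1, ?_, ?_, ?_, ?_⟩
    · intro h
      obtain ⟨u', hu'⟩ := h2 ((X.P.N_eq_smul g).1 h)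
      exact ⟨g • u', by rw [X.P.eN, hu']⟩
    · intro h
      rw [X.P.eN, X.P.eN] at h
      rw [X.P.eN, h3 (smul_left_cancel g h)]
    · rw [h4, ← pos_smul]
    · rw [h5, ← pos_smul]
  · right
    refine ⟨g • v, fun h => h1 ((EllV_smul_iff g).1 h), ?_, ?_⟩
    · rw [X.P.eN, X.P.eM]
      exact fun h => h2 (smul_left_cancel g h)
    · rw [X.P.eN, X.P.eM]
      rcases h3 with ⟨h3, h4⟩ | ⟨h3, h4⟩
      · left
        rw [h3, h4]
        exact ⟨rfl, rfl⟩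
      · right
        rw [h3, h4]
        exact ⟨rfl, rfl⟩

/-- existence of the dart over `w` -/
theorem kb_ov_ex {X : Ctx G} {u w : X.U} {τ : Tk X.U X.V}
    (h : (∃ x y, X.K.adj x y ∧ Cross X.P x y u w ∧ τ = .e u w x y) ∨
        (∃ v, ¬ EllV X.D X.K v ∧ Ax2 X.P v u w ∧ τ = .l u w v)) :
    ∃ q, kbOv X w (tk X.Q τ) q := by
  rcases h with ⟨x, y, h1, h2, rfl⟩ | ⟨v, h1, h2, rfl⟩
  · refine ⟨pos X.Q y x w, Or.inl ⟨x, y, h1, fun h => absurd h (kb_cross_ne h2).2.2,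
      (kb_cross_onI h2).2, ?_, rfl⟩⟩
    unfold pos
    rw [h2.2.1, if_neg h2.1.ne]
    exact congrArg Sum.inr (Quot.sound (TRel.swU u w x y))
  · rcases h2 with h2 | h2
    · have hadj : X.D.T.Adj u w := by
        rcases (X.P.fN v).1 u with h3 | h3
        · exact absurd h3 h2.2.2
        · rwa [h2.1] at h3
      refine ⟨tk X.Q (.l w (X.P.N v w) v), Or.inr ⟨v, h1, ?_, Or.inr ⟨rfl, ?_⟩⟩⟩
      · rw [h2.2.1]
        exact ((X.P.fN v).2 u w hadj).1 h2.1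
      · rw [h2.2.1]
        exact congrArg Sum.inr (Quot.sound (TRel.swL u w v))
    · have hadj : X.D.T.Adj w u := by
        rcases (X.P.fN v).1 w with h3 | h3
        · exact absurd h3 h2.2.2
        · rwa [h2.1] at h3
      refine ⟨tk X.Q (.l w (X.P.M v w) v), Or.inr ⟨v, h1, ?_, Or.inl ⟨?_, rfl⟩⟩⟩
      · rw [h2.1]
        intro h
        exact ((X.P.fM v).2 w u hadj).1 h.symm h2.2.1
      · rw [h2.1]
        exact congrArg Sum.inr (Quot.sound (TRel.swL u w v))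

theorem kb_pair {U : Type} {a b c : U} (h : ({a, b} : Set U) = {a, c}) : b = c := by
  have h1 : b ∈ ({a, c} : Set U) := by rw [← h]; simp
  have h2 : c ∈ ({a, b} : Set U) := by rw [h]; simp
  rcases h1 with h1 | h1
  · rcases h2 with h2 | h2
    · rw [h1, h2]
    · exact h2.symm
  · exact h1

/-- the other end of a dart over `w` starting at a track over `{u,w}` -/
theorem kb_ov_loc (hRLOC : ST_RLOC) {X : Ctx G} {u w : X.U} {τ : Tk X.U X.V} {q : AV X.Q}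
    (hτ : kbLoc τ = {u, w}) (h : kbOv X w (tk X.Q τ) q) :
    (∃ y, q = Sum.inl y ∧ X.P.N y w = w) ∨
      (∃ τ' a, q = tk X.Q τ' ∧ kbLoc τ' = {w, a} ∧ a ≠ u ∧ a ≠ w) := by
  have hτ' : kbLoc τ = {w, u} := by rw [hτ, Set.pair_comm]
  rcases h with ⟨x, y, h1, h2, h3, h4, h5⟩ | ⟨v, h1, h2, h3⟩
  · by_cases hy : X.P.N y w = w
    · left
      refine ⟨y, ?_, hy⟩
      rw [h5]
      unfold pos
      rw [if_pos hy]
    · right
      refine ⟨.e w (X.P.N y w) y x, X.P.N y w, ?_, rfl, ?_, hy⟩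
      · rw [h5]
        unfold pos
        rw [if_neg hy]
      · by_cases hx : X.P.N x w = w
        · exfalso
          unfold pos at h4
          rw [if_pos hx] at h4
          cases h4
        · unfold pos at h4
          rw [if_neg hx] at h4
          have h6 := kb_loc_eq hRLOC X.Q _ _ h4
          rw [hτ'] at h6
          have h7 : u = X.P.N x w := kb_pair h6
          intro h8
          apply hx
          apply h3
          rw [h8]; exact h7.symm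
  · right
    have hN := (X.P.hyp v h1).1 w
    have hM := (X.P.hyp v h1).2.1 w
    rcases h3 with ⟨h3, h4⟩ | ⟨h4, h3⟩
    · refine ⟨_, X.P.M v w, h4, rfl, ?_, hM⟩
      have h6 := kb_loc_eq hRLOC X.Q _ _ h3
      rw [hτ'] at h6
      have h7 : u = X.P.N v w := kb_pair h6
      rw [h7]
      exact h2.symm
    · refine ⟨_, X.P.N v w, h4, rfl, ?_, hN⟩
      have h6 := kb_loc_eq hRLOC X.Q _ _ h3
      rw [hτ'] at h6
      have h7 : u = X.P.M v w := kb_pair h6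
      rw [h7]
      exact h2

/-- a dart starting at a track over `{u,w}` is over one of `u`, `w` only -/
theorem kb_ov_uniq (hRLOC : ST_RLOC) {X : Ctx G} {u w : X.U} {τ : Tk X.U X.V} {q : AV X.Q}
    (hadj : X.D.T.Adj u w) (hτ : kbLoc τ = {u, w}) (h : kbOv X w (tk X.Q τ) q)
    (h' : kbOv X u (tk X.Q τ) q) : False := by
  have hτ' : kbLoc τ = {w, u} := by rw [hτ, Set.pair_comm]
  rcases kb_ov_loc hRLOC hτ h with ⟨y, rfl, h1⟩ | ⟨τ₁, a, rfl, h1, h2, h2'⟩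
  · rcases kb_ov_loc hRLOC hτ' h' with ⟨y', h3, h4⟩ | ⟨τ', a', h3, -⟩
    · have h5 : y = y' := Sum.inl.inj h3
      subst h5
      have h6 := ((X.P.fN y).2 u w hadj).2
      have h7 : X.P.N y w ≠ u := by rw [h1]; exact hadj.ne'
      have h8 := h6 h7
      rw [h4] at h8
      exact hadj.ne h8
    · cases h3
  · rcases kb_ov_loc hRLOC hτ' h' with ⟨y', h3, -⟩ | ⟨τ', a', h3, h4, h5, h6⟩
    · cases h3
    · have h7 := kb_loc_eq hRLOC X.Q _ _ h3
      rw [h1, h4] at h7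
      have h8 : w ∈ ({u, a'} : Set X.U) := by rw [← h7]; simp
      rcases h8 with h8 | h8
      · exact hadj.ne h8.symm
      · exact h5 h8.symm

/-- the data of a good component -/
structure kbDat (X : Ctx G) (C : Set X.NP) (p q : AV X.Q) (n : X.NP) (u w : X.U)
    (τ : Tk X.U X.V) : Prop where
  hn : n ∈ X.NPs
  good : goodR X.BN X.sP X.tP n
  hC : C = compR X.BN X.sP X.tP n
  tok : kbTok X n u w τ
  hp : p = tk X.Q τ
  ov : kbOv X w p q

theorem kb_dat_ex (hCLU : ST_CLU) (hGRP : ST_GRP) (X : Ctx G) {n : X.NP} (hn : n ∈ X.NPs)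
    (hg : goodR X.BN X.sP X.tP n) : ∃ p q u w τ,
      kbDat X (compR X.BN X.sP X.tP n) p q n u w τ := by
  obtain ⟨u, w, τ, h1, h2⟩ := kb_tok hCLU hGRP X hn
  obtain ⟨q, hq⟩ := kb_ov_ex h2
  exact ⟨_, q, u, w, τ, hn, hg, rfl, h1, rfl, hq⟩

theorem kb_dat_key (hCLU : ST_CLU) (hHON : ST_HON) (hTFD : ST_TFD) (hGRP : ST_GRP)
    {X : Ctx G} {C C' : Set X.NP} {p q p' q' : AV X.Q} {n n' : X.NP} {u w u' w' : X.U}
    {τ τ' : Tk X.U X.V} (h : kbDat X C p q n u w τ) (h' : kbDat X C' p' q' n' u' w' τ')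
    {g : G} (hg : g • p = p') (hu : g • u = u') (hw : g • w = w') : g • C = C' := by
  have hG := hGRP G X
  have h1 : tk X.Q τ' = tk X.Q (g • τ) := by
    rw [tk_smul, ← h.hp, hg, h'.hp]
  have hcl : kbCl X C' := by
    rw [h'.hC]
    exact kb_cl_of_good h'.good
  have hmem : n' ∈ C' := by
    rw [h'.hC]
    exact Relation.ReflTransGen.refl
  have h2 := kb_tk hCLU hHON hTFD X hcl u' w' _ _ h1 (h'.tok.gt C' hmem)
  rw [← hu, ← hw] at h2
  have h3 := h.tok.back C' g h2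
  rw [h.hC, kb_comp_smul hG, h'.hC]
  rw [h'.hC] at h3
  exact kb_comp_eq h3

theorem kb_pair_cases {U : Type} {a b c d : U} (h : ({a, b} : Set U) = {c, d}) :
    (a = c ∧ b = d) ∨ (a = d ∧ b = c) := by
  have h1 : a ∈ ({c, d} : Set U) := by rw [← h]; simp
  rcases h1 with h1 | h1
  · left
    subst h1
    exact ⟨rfl, kb_pair h⟩
  · right
    have h1' : a = d := h1
    subst h1'
    rw [Set.pair_comm c] at h
    exact ⟨rfl, kb_pair h⟩

theorem kb_dat_loc (hRLOC : ST_RLOC) {X : Ctx G} {C C' : Set X.NP} {p q p' q' : AV X.Q}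
    {n n' : X.NP} {u w u' w' : X.U} {τ τ' : Tk X.U X.V} (h : kbDat X C p q n u w τ)
    (h' : kbDat X C' p' q' n' u' w' τ') {g : G} (hg : g • p = p') :
    (g • u = u' ∧ g • w = w') ∨ (g • u = w' ∧ g • w = u') := by
  have h1 : tk X.Q (g • τ) = tk X.Q τ' := by
    rw [tk_smul, ← h.hp, hg, h'.hp]
  have h2 := kb_loc_eq hRLOC X.Q _ _ h1
  rw [kb_loc_smul, h.tok.loc, h'.tok.loc, Set.image_pair] at h2
  exact kb_pair_cases h2

/-- the first endpoint is free -/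
theorem kb_dat_free (hCLU : ST_CLU) (hHON : ST_HON) (hTFD : ST_TFD) (hGRP : ST_GRP)
    (hRLOC : ST_RLOC) (hINF : ST_INF) {X : Ctx G} {C : Set X.NP} {p q : AV X.Q} {n : X.NP}
    {u w : X.U} {τ : Tk X.U X.V} (h : kbDat X C p q n u w τ) {g : G} (hg : g • p = p) :
    g = 1 := by
  rcases kb_dat_loc hRLOC h h hg with ⟨h1, h2⟩ | h1
  · have h3 := kb_dat_key hCLU hHON hTFD hGRP h h hg h1 h2
    rw [h.hC] at h3
    exact (hGRP G X).triv n h.hn h.good g h3
  · exact absurd h1 ((hINF G X.D).2.2.2 g u w h.tok.adj)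

/-- the same dart, the same component -/
theorem kb_dat_orb (hCLU : ST_CLU) (hHON : ST_HON) (hTFD : ST_TFD) (hGRP : ST_GRP)
    (hRLOC : ST_RLOC) {X : Ctx G} {C C' : Set X.NP} {p q p' q' : AV X.Q} {n n' : X.NP}
    {u w u' w' : X.U} {τ τ' : Tk X.U X.V} (h : kbDat X C p q n u w τ)
    (h' : kbDat X C' p' q' n' u' w' τ') {g : G} (hg : g • p = p') (hg' : g • q = q') :
    g • C = C' := by
  rcases kb_dat_loc hRLOC h h' hg with ⟨h1, h2⟩ | ⟨h1, h2⟩
  · exact kb_dat_key hCLU hHON hTFD hGRP h h' hg h1 h2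
  · exfalso
    have h3 := kb_ov_smul g h.ov
    rw [h2, hg, hg', h'.hp] at h3
    have h4 := h'.ov
    rw [h'.hp] at h4
    exact kb_ov_uniq hRLOC h'.tok.adj h'.tok.loc h4 h3

theorem st_KB (hCLU : ST_CLU) (hHON : ST_HON) (hGRP : ST_GRP) (hRLOC : ST_RLOC)
    (hINF : ST_INF) (hTFD : ST_TFD) : ST_KB := by
  intro G _ X K2 K3 e i he heq hran hadj hsub hst
  have hst2 : ∀ (g : G) (p : K2.V), g • e p = e p → g • p = p := by
    intro g p h
    apply he
    rw [heq, h]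
  -- the two parts of the free darts of `K2`
  set A : Set (K2.V × K2.V) := {d | K2.adj d.1 d.2 ∧ Fr K2 d.1 d.2 ∧
    stabilizer G d.1 ≠ ⊥} with hA
  set B : Set (K2.V × K2.V) := {d | K2.adj d.1 d.2 ∧ stabilizer G d.1 = ⊥} with hB
  have hAB : A ∪ B = {d : K2.V × K2.V | K2.adj d.1 d.2 ∧ Fr K2 d.1 d.2} := by
    ext d
    constructor
    · rintro (⟨h1, h2, -⟩ | ⟨h1, h2⟩)
      · exact ⟨h1, h2⟩
      · refine ⟨h1, fun g hg _ => ?_⟩
        have : g ∈ stabilizer G d.1 := hg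
        rw [h2] at this
        exact this
    · rintro ⟨h1, h2⟩
      by_cases h3 : stabilizer G d.1 = ⊥
      · exact Or.inr ⟨h1, h3⟩
      · exact Or.inl ⟨h1, h2, h3⟩
  have hfin : FinOrb G (A ∪ B) := by
    rw [hAB]
    exact K2.finE.mono (fun d hd => hd.1)
  have hfA : FinOrb G A := hfin.mono Set.subset_union_left
  have hfB : FinOrb G B := hfin.mono Set.subset_union_right
  have hdd : dd K2 = oc G A + oc G B := by
    unfold dd
    rw [← hAB]
    refine oc_union hfA hfB ?_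
    rintro ⟨x, y⟩ ⟨-, -, h1⟩ _ ⟨-, h2⟩ g rfl
    apply h1
    have h3 : stabilizer G (g • x) = ⊥ := h2
    rw [eq_bot_iff]
    intro k hk
    have hk' : k • x = x := hk
    have h4 : (g * k * g⁻¹) ∈ stabilizer G (g • x) := by
      show (g * k * g⁻¹) • (g • x) = g • x
      rw [mul_smul, mul_smul, inv_smul_smul, hk']
    rw [h3] at h4
    have h5 : g * k * g⁻¹ = 1 := h4
    show k = 1
    have h6 : k = g⁻¹ * (g * k * g⁻¹) * g := by group
    rw [h6, h5]; group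
  have h1 : dd K3 ≤ oc G A := by
    unfold dd
    refine (oc_le_rel (fun d d' => d' = (i d.1, i d.2)) hfA ?_ ?_).2
    · rintro ⟨x, y⟩ ⟨h1, h2⟩
      refine ⟨(i x, i y), ⟨hsub.adj _ _ h1, ?_, ?_⟩, rfl⟩
      · intro g hgx hgy
        refine h2 g (hsub.inj ?_) (hsub.inj ?_)
        · rw [hsub.equiv]; exact hgx
        · rw [hsub.equiv]; exact hgy
      · intro h
        apply hst x
        rw [eq_bot_iff]
        intro k hk
        have hk' : k • x = x := hk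
        have : k ∈ stabilizer G (i x) := by
          show k • i x = i x
          rw [← hsub.equiv, hk']
        rw [show stabilizer G (i x) = ⊥ from h] at this
        exact this
    · rintro ⟨x, y⟩ - ⟨x', y'⟩ - _ - _ - rfl rfl g hg
      obtain ⟨e1, e2⟩ := Prod.ext_iff.1 hg
      refine ⟨g, Prod.ext (hsub.inj ?_) (hsub.inj ?_)⟩
      · rw [show (g • (x, y)).1 = g • x from rfl, hsub.equiv]; exact e1
      · rw [show (g • (x, y)).2 = g • y from rfl, hsub.equiv]; exact e2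
  have h2 : cR X.BN X.sP X.tP G X.NPs ≤ oc G B := by
    unfold cR
    refine (oc_le_rel (fun C d => ∃ n u w τ, kbDat X C (e d.1) (e d.2) n u w τ) hfB ?_ ?_).2
    · rintro C ⟨n, hn, hg, rfl⟩
      obtain ⟨p, q, u, w, τ, hd⟩ := kb_dat_ex hCLU hGRP X hn hg
      have ha := kb_ov_adj hd.ov
      obtain ⟨p', rfl⟩ := (hran p).2 ⟨q, ha⟩
      have hq : ∃ q', e q' = q := by
        refine (hran q).2 ⟨e p', ?_⟩
        rcases ha with ⟨x, y, u', a1, a2, a3, a4, a5⟩ | ⟨v, u', a1, a2, a3⟩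
        · refine Or.inl ⟨y, x, u', X.K.symm _ _ a1, fun h => ?_, fun h => ?_, a5, a4⟩
          · obtain ⟨u₁, hu₁⟩ := a2 h.symm
            exact ⟨u₁, by rw [h]; exact hu₁⟩
          · rw [h]
            exact a3 h.symm
        · exact Or.inr ⟨v, u', a1, a2, a3.symm⟩
      obtain ⟨q', rfl⟩ := hq
      refine ⟨(p', q'), ⟨(hadj _ _).2 ha, ?_⟩, n, u, w, τ, hd⟩
      rw [eq_bot_iff]
      intro g hg
      have hg' : g • p' = p' := hg
      exact kb_dat_free hCLU hHON hTFD hGRP hRLOC hINF hd (by rw [← heq, hg'])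
    · rintro C - C' - d - d' - ⟨n, u, w, τ, hd⟩ ⟨n', u', w', τ', hd'⟩ g rfl
      refine ⟨g, kb_dat_orb hCLU hHON hTFD hGRP hRLOC hd hd' ?_ ?_⟩
      · rw [← heq]; rfl
      · rw [← heq]; rfl
  rw [hdd]
  exact Nat.add_le_add h1 h2

end Pool.Agent.Helper93.HZ
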