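import Pool.Agent.Helper93.HZ.Blow
import Pool.Agent.Helper93.HZ.Lib

/-! # HZ: KIR (6.12)

The divergence of an element of `ker B` vanishes at every corner side. -/

set_option autoImplicit false

open MulAction Pointwise

namespace Pool.Agent.Helper93.HZ

open Ctx

/-- following a field one never comes back over an edge -/
theorem kir_noret (hTFA : ST_TFA) {U : Type} {T : SimpleGraph U} (hT : T.IsTree) {N : U → U}
    (hN : IsField T N) {u w : U} (h : T.Adj u w) (h1 : N u = w) (k : ℕ) : N^[k] w ≠ u := by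
  obtain ⟨F, hF, hFu⟩ := (hTFA U T hT).1 u
  have key : ∀ k : ℕ, N (F (N^[k] w)) = N^[k] w ∧ T.Adj (F (N^[k] w)) (N^[k] w) := by
    intro k
    induction k with
    | zero =>
      have h2 : F w = u := by
        by_contra h2
        have h3 := (hF.2 u w h).2 h2
        rw [hFu] at h3
        exact h.ne h3
      show N (F w) = w ∧ T.Adj (F w) w
      rw [h2]
      exact ⟨h1, h⟩
    | succ k ih =>
      rw [Function.iterate_succ_apply']
      set v := N^[k] w with hv
      obtain ⟨i1, i2⟩ := ih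
      rcases hN.1 v with h2 | h2
      · rw [h2]
        exact ⟨i1, i2⟩
      · have h3 : N v ≠ F v := (hN.2 _ _ i2).1 i1
        have h4 : F (N v) = v := by
          by_contra h4
          exact h3 ((hF.2 _ _ h2).2 h4).symm
        rw [h4]
        exact ⟨rfl, h2⟩
  intro h2
  have h3 := (key k).2
  rw [h2, hFu] at h3
  exact h3.ne rfl

variable {G : Type} [Group G]

/-- location of a band: a `T`-dart -/
def kirL {X : Ctx G} (b : Band G X) : X.U × X.U :=
  if b.o then (b.w, X.P.N b.y b.w) else (X.P.N b.y b.w, b.w)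

/-- location of a node -/
def kirN {X : Ctx G} : X.NP → X.U × X.U
  | .inl (_, _, u, w) => (u, w)
  | .inr (_, u, w) => (u, w)

theorem kir_pt {X : Ctx G} {x y : X.V} {u w : X.U} {n : X.NP} (h : X.ptN x y u w = some n) :
    kirN n = (u, w) := by
  unfold ptN at h
  split_ifs at h
  all_goals
    rw [← Option.some.inj h]
    rfl

theorem kir_sP {X : Ctx G} {b : Band G X} {n : X.NP} (h : X.sP b = some n) :
    kirN n = kirL b := by
  unfold sP at h
  unfold kirL
  by_cases ho : b.o = true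
  · rw [if_pos ho] at h ⊢
    exact kir_pt h
  · rw [if_neg ho] at h ⊢
    exact kir_pt h

theorem kir_tP {X : Ctx G} {b : Band G X} {n : X.NP} (h : X.tP b = some n) :
    kirN n = kirL b := by
  unfold tP at h
  unfold kirL
  by_cases ho : b.o = true
  · rw [if_pos ho] at h ⊢
    exact kir_pt h
  · rw [if_neg ho] at h ⊢
    exact kir_pt h

theorem kir_seg {X : Ctx G} {x' y' x y : X.V} {u' u : X.U}
    (h : X.segN x' y' u' = some (.inl (x, y, u))) : x' = x ∧ y' = y ∧ u' = u := by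
  unfold segN at h
  split_ifs at h
  · have h1 := Sum.inl.inj (Option.some.inj h)
    obtain ⟨h2, h3⟩ := Prod.ext_iff.1 h1
    obtain ⟨h4, h5⟩ := Prod.ext_iff.1 h3
    exact ⟨h2, h4, h5⟩
  all_goals
    have h1 := Option.some.inj h
    cases h1

open Classical in
/-- restriction to the arcs over the `T`-dart `d` -/
noncomputable def kirZ {X : Ctx G} (ζ : Band G X → ℝ) (d : X.U × X.U) (b : Band G X) : ℝ :=
  if kirL b = d then ζ b else 0

open Classical in
theorem kir_div {X : Ctx G} (ζ : Band G X → ℝ) (d : X.U × X.U) (n : X.NP) :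
    divR X.BN X.sP X.tP (kirZ ζ d) n = if kirN n = d then divR X.BN X.sP X.tP ζ n else 0 := by
  classical
  unfold divR
  by_cases h : kirN n = d
  · rw [if_pos h]
    congr 1
    · refine finsum_congr (fun b => finsum_congr (fun hb => ?_))
      unfold kirZ
      rw [if_pos (by rw [← kir_sP hb.2]; exact h)]
    · refine finsum_congr (fun b => finsum_congr (fun hb => ?_))
      unfold kirZ
      rw [if_pos (by rw [← kir_tP hb.2]; exact h)]
  · rw [if_neg h]
    have e1 : (∑ᶠ (y) (_ : y ∈ X.BN ∧ X.sP y = some n), kirZ ζ d y) = 0 := by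
      rw [← finsum_zero (α := Band G X) (M := ℝ)]
      refine finsum_congr (fun b => ?_)
      rw [← finsum_zero (α := (b ∈ X.BN ∧ X.sP b = some n)) (M := ℝ)]
      refine finsum_congr (fun hb => ?_)
      unfold kirZ
      rw [if_neg (by rw [← kir_sP hb.2]; exact h)]
    have e2 : (∑ᶠ (y) (_ : y ∈ X.BN ∧ X.tP y = some n), kirZ ζ d y) = 0 := by
      rw [← finsum_zero (α := Band G X) (M := ℝ)]
      refine finsum_congr (fun b => ?_)
      rw [← finsum_zero (α := (b ∈ X.BN ∧ X.tP b = some n)) (M := ℝ)]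
      refine finsum_congr (fun hb => ?_)
      unfold kirZ
      rw [if_neg (by rw [← kir_tP hb.2]; exact h)]
    rw [e1, e2, sub_zero]

theorem kir_cyc {X : Ctx G} {ζ : Band G X → ℝ} (hζ : ζ ∈ cycR X.BN X.sP X.tP X.NPs)
    (d : X.U × X.U) : kirZ ζ d ∈ cycR X.BN X.sP X.tP X.NPs := by
  classical
  obtain ⟨h1, h2, h3⟩ := hζ
  refine ⟨?_, ?_, ?_⟩
  · intro b hb
    unfold kirZ
    rw [h1 b hb, ite_self]
  · refine Summable.of_nonneg_of_le (fun b => sq_nonneg _) (fun b => ?_) h2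
    unfold kirZ
    by_cases h : kirL b = d
    · rw [if_pos h]
    · rw [if_neg h]
      have := sq_nonneg (ζ b)
      simpa using this
  · intro n hn
    rw [kir_div, h3 n hn, ite_self]

/-- the chain of bands towards the center leaves `BN` -/
theorem kir_fin (hTFA : ST_TFA) (hHON : ST_HON) (X : Ctx G) (x y z : X.V) (v : X.U) (o : Bool) :
    ∃ k : ℕ, (⟨x, y, z, (X.P.N y)^[k] v, o⟩ : Band G X) ∉ X.BN := by
  by_contra hcon
  push Not at hcon
  have h0 := hcon 0
  obtain ⟨t, n1, n2, n3, -⟩ := h0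
  have n1' : X.P.N y v = X.P.N z v := n1
  have n3' : X.P.N x v ≠ X.P.N y v := n3
  have hxy : X.P.N x ≠ X.P.N y := fun h => n3' (by rw [h])
  have hxz : X.P.N x ≠ X.P.N z := fun h => n3' (by rw [h, n1'])
  have hinj : Function.Injective (fun k : ℕ => (X.P.N y)^[k] v) := by
    have hlt : ∀ k k' : ℕ, k < k' → (X.P.N y)^[k] v ≠ (X.P.N y)^[k'] v := by
      intro k k' hk he
      obtain ⟨m, rfl⟩ := Nat.exists_eq_add_of_lt hk
      have hs : X.P.N y ((X.P.N y)^[k] v) ≠ (X.P.N y)^[k] v := (hcon k).2.2.1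
      have hadj : X.D.T.Adj ((X.P.N y)^[k] v) (X.P.N y ((X.P.N y)^[k] v)) := by
        rcases (X.P.fN y).1 ((X.P.N y)^[k] v) with h | h
        · exact absurd h hs
        · exact h
      have h2 := kir_noret hTFA X.D.tree (X.P.fN y) hadj rfl m
      apply h2
      rw [← Function.iterate_succ_apply, ← Function.iterate_add_apply]
      have h3 : m.succ + k = k + m + 1 := by omega
      rw [h3]
      exact he.symm
    intro k k' he
    rcases lt_trichotomy k k' with h | h | h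
    · exact absurd he (hlt _ _ h)
    · exact h
    · exact absurd he.symm (hlt _ _ h)
  have hfin : ({u | Fr X.K x y ∧ X.Hon x y u} ∪ {u | Fr X.K x z ∧ X.Hon x z u} :
      Set X.U).Finite := by
    refine Set.Finite.union ?_ ?_
    · by_cases hF : Fr X.K x y
      · exact ((hHON G X x y ⟨X.K.tri_adj _ _ _ t, hF, hxy⟩).2.2.2.2.2.1).subset
          (fun u hu => hu.2)
      · refine Set.Finite.subset Set.finite_empty (fun u hu => hF hu.1)
    · by_cases hF : Fr X.K x z
      · exact ((hHON G X x z ⟨(X.K.tri_adj' t).2.2.2.2.2, hF, hxz⟩).2.2.2.2.2.1).subset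
          (fun u hu => hu.2)
      · refine Set.Finite.subset Set.finite_empty (fun u hu => hF hu.1)
  refine Set.infinite_range_of_injective hinj (hfin.subset ?_)
  rintro _ ⟨k, rfl⟩
  exact (hcon k).2.2.2.2

/-- `b` vanishes at a band whose chain does not meet the `T`-dart `d` -/
theorem kir_van (hTFA : ST_TFA) (hHON : ST_HON) (X : Ctx G) {ζ b : Band G X → ℝ}
    {d : X.U × X.U} (hb : ∀ B ∉ X.BN, b B = 0) (hdel : X.del b = kirZ ζ d) (x y z : X.V)
    (v : X.U) (o : Bool)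
    (h : ∀ k : ℕ, kirL (⟨x, y, z, (X.P.N y)^[k] v, o⟩ : Band G X) ≠ d) :
    b ⟨x, y, z, v, o⟩ = 0 := by
  classical
  obtain ⟨K, hK⟩ := kir_fin hTFA hHON X x y z v o
  induction K generalizing v with
  | zero => exact hb _ hK
  | succ K ih =>
    by_cases hB : (⟨x, y, z, v, o⟩ : Band G X) ∈ X.BN
    · have h1 := congrFun hdel ⟨x, y, z, v, o⟩
      have h2 : kirZ ζ d (⟨x, y, z, v, o⟩ : Band G X) = 0 := by
        unfold kirZ
        exact if_neg (h 0)
      rw [h2] at h1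
      unfold del at h1
      rw [if_pos hB] at h1
      have h3 : b ⟨x, y, z, X.P.N y v, o⟩ = 0 := by
        refine ih (X.P.N y v) (fun k => ?_) ?_
        · rw [← Function.iterate_succ_apply]
          exact h (k + 1)
        · rw [← Function.iterate_succ_apply]
          exact hK
      have h4 : (if (⟨x, y, z, X.P.N y v, o⟩ : Band G X) ∈ X.BN then
          b ⟨x, y, z, X.P.N y v, o⟩ else 0) = 0 := by
        rw [h3, ite_self]
      have h5 : (if X.D.arr v (X.P.N y v) then (1 : ℝ) else -1) ≠ 0 := by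
        split_ifs <;> norm_num
      have h6 := (mul_eq_zero.1 h1).resolve_left h5
      have h7 : b ⟨x, y, z, v, o⟩ - (if (⟨x, y, z, X.P.N y v, o⟩ : Band G X) ∈ X.BN then
          b ⟨x, y, z, X.P.N y v, o⟩ else 0) = 0 := h6
      rw [h4, sub_zero] at h7
      exact h7
    · exact hb _ hB

/-- `b` at the outer endpoint of the `T`-dart `d` -/
theorem kir_out (hTFA : ST_TFA) (hHON : ST_HON) (X : Ctx G) {ζ b : Band G X → ℝ}
    {d : X.U × X.U} (hb : ∀ B ∉ X.BN, b B = 0) (hdel : X.del b = kirZ ζ d) (x y z : X.V)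
    (v : X.U) (o : Bool) (hB : (⟨x, y, z, v, o⟩ : Band G X) ∈ X.BN)
    (hd : kirL (⟨x, y, z, v, o⟩ : Band G X) = d)
    (h : ∀ k : ℕ, kirL (⟨x, y, z, (X.P.N y)^[k] (X.P.N y v), o⟩ : Band G X) ≠ d) (s : ℝ)
    (hs : s = 1 ∧ X.D.arr v (X.P.N y v) ∨ s = -1 ∧ ¬ X.D.arr v (X.P.N y v)) :
    b ⟨x, y, z, v, o⟩ = s * ζ ⟨x, y, z, v, o⟩ := by
  classical
  have h1 := congrFun hdel ⟨x, y, z, v, o⟩
  have h2 : kirZ ζ d (⟨x, y, z, v, o⟩ : Band G X) = ζ ⟨x, y, z, v, o⟩ := by
    unfold kirZ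
    exact if_pos hd
  rw [h2] at h1
  unfold del at h1
  rw [if_pos hB] at h1
  have h3 : b ⟨x, y, z, X.P.N y v, o⟩ = 0 :=
    kir_van hTFA hHON X hb hdel x y z _ o h
  have h4 : (if (⟨x, y, z, X.P.N y v, o⟩ : Band G X) ∈ X.BN then
      b ⟨x, y, z, X.P.N y v, o⟩ else 0) = 0 := by
    rw [h3, ite_self]
  have h7 : (if X.D.arr v (X.P.N y v) then (1 : ℝ) else -1) *
      (b ⟨x, y, z, v, o⟩ - (if (⟨x, y, z, X.P.N y v, o⟩ : Band G X) ∈ X.BN then
      b ⟨x, y, z, X.P.N y v, o⟩ else 0)) = ζ ⟨x, y, z, v, o⟩ := h1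
  rw [h4, sub_zero] at h7
  rw [← h7]
  rcases hs with ⟨hs, ha⟩ | ⟨hs, ha⟩
  · rw [hs, if_pos ha]; ring
  · rw [hs, if_neg ha]; ring

/-- comparison of the sums over bands and over third vertices -/
theorem kir_sum {X : Ctx G} (b ζ : Band G X → ℝ) (s : ℝ) (S : Set (Band G X))
    (φ : X.V → Band G X) (hφ : Function.Injective φ)
    (h1 : ∀ z, φ z ∈ X.BN → φ z ∈ S ∧ b (φ z) = s * ζ (φ z))
    (h2 : ∀ B ∈ S, B ∈ X.BN ∧ ((∃ z, B = φ z) ∨ b B = 0)) :
    (∑ᶠ (B) (_ : B ∈ S), b B) = s * ∑ᶠ (z) (_ : φ z ∈ X.BN), ζ (φ z) := by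
  have e1 : (∑ᶠ (B) (_ : B ∈ S), b B) = ∑ᶠ (B) (_ : B ∈ φ '' {z | φ z ∈ X.BN}), b B := by
    apply finsum_mem_inter_support_eq
    ext B
    constructor
    · rintro ⟨hB, hs⟩
      refine ⟨?_, hs⟩
      obtain ⟨hB2, h3 | h3⟩ := h2 B hB
      · obtain ⟨z, rfl⟩ := h3
        exact ⟨z, hB2, rfl⟩
      · exact absurd h3 hs
    · rintro ⟨⟨z, hz, rfl⟩, hs⟩
      exact ⟨(h1 z hz).1, hs⟩
  rw [e1, finsum_mem_image hφ.injOn]
  have e2 : (∑ᶠ (j) (_ : j ∈ {z | φ z ∈ X.BN}), b (φ j)) =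
      ∑ᶠ (j) (_ : j ∈ {z | φ z ∈ X.BN}), s • ζ (φ j) := by
    refine finsum_mem_congr rfl (fun z hz => ?_)
    rw [(h1 z hz).2, smul_eq_mul]
  rw [e2]
  have e3 : (fun z => ∑ᶠ (_ : z ∈ {z | φ z ∈ X.BN}), s • ζ (φ z)) =
      fun z => s • ∑ᶠ (_ : z ∈ {z | φ z ∈ X.BN}), ζ (φ z) := by
    funext z
    rw [smul_finsum]
  rw [e3, ← smul_finsum, smul_eq_mul]
  rfl

/-- bands starting or ending at an honest node -/
theorem kir_sS {X : Ctx G} {B : Band G X} {x y : X.V} {u : X.U}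
    (h : X.sS B = some (.inl (x, y, u))) :
    B = ⟨x, y, B.z, u, true⟩ ∨ B = ⟨y, x, B.z, u, false⟩ := by
  obtain ⟨bx, bY, bz, bw, bo⟩ := B
  unfold sS at h
  cases bo with
  | true =>
    left
    rw [if_pos rfl] at h
    obtain ⟨h1, h2, h3⟩ := kir_seg h
    simp only at h1 h2 h3
    rw [h1, h2, h3]
  | false =>
    right
    rw [if_neg (by simp)] at h
    obtain ⟨h1, h2, h3⟩ := kir_seg h
    simp only at h1 h2 h3
    rw [h1, h2, h3]

theorem kir_tS {X : Ctx G} {B : Band G X} {x y : X.V} {u : X.U}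
    (h : X.tS B = some (.inl (x, y, u))) :
    B = ⟨x, B.y, y, u, true⟩ ∨ B = ⟨y, B.y, x, u, false⟩ := by
  obtain ⟨bx, bY, bz, bw, bo⟩ := B
  unfold tS at h
  cases bo with
  | true =>
    left
    rw [if_pos rfl] at h
    obtain ⟨h1, h2, h3⟩ := kir_seg h
    simp only at h1 h2 h3
    rw [h1, h2, h3]
  | false =>
    right
    rw [if_neg (by simp)] at h
    obtain ⟨h1, h2, h3⟩ := kir_seg h
    simp only at h1 h2 h3
    rw [h1, h2, h3]

theorem kir_segN_hon {X : Ctx G} {x y : X.V} {u : X.U} (hf : Fr X.K x y)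
    (h1 : X.Hon x y u) : X.segN x y u = some (.inl (x, y, u)) := by
  unfold segN
  rw [if_pos ⟨hf, h1⟩]

theorem kir_sgn {X : Ctx G} (u w : X.U) : ∃ s : ℝ, s ≠ 0 ∧
    (s = 1 ∧ X.D.arr u w ∨ s = -1 ∧ ¬ X.D.arr u w) := by
  by_cases h : X.D.arr u w
  · exact ⟨1, one_ne_zero, Or.inl ⟨rfl, h⟩⟩
  · exact ⟨-1, by norm_num, Or.inr ⟨rfl, h⟩⟩

theorem st_KIR (hCOR : ST_COR) (hHON : ST_HON) (hTFA : ST_TFA) : ST_KIR := by
  intro G _ X hopt ζ hζ x y u w hf hc hu hw
  obtain ⟨K2, K3, e, i, ρ, -, -, -, -, -, -, -, -, -, -, -, -, hcor⟩ := hCOR G X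
  obtain ⟨b, ⟨hb1, hb2, hb3⟩, hdel⟩ := hcor hopt _ (kir_cyc hζ (u, w))
  obtain ⟨hadj, hxw, hyu⟩ := hc
  have hI1 : X.P.N x u ≠ w := fun h => ((X.P.fN x).2 u w hadj).1 h hxw
  have hI2 : X.P.N y w ≠ u := ((X.P.fN y).2 u w hadj).1 hyu
  have hOn1 : OnI (X.P.N x) (X.P.N y) u := fun h => absurd (h.trans hyu) hI1
  have hOn2 : OnI (X.P.N x) (X.P.N y) w := fun h => absurd (h.symm.trans hxw) hI2
  -- chains which do not meet the dart
  have ch1 : ∀ y' : X.V, X.P.N y' u = w → ∀ k : ℕ, (X.P.N y')^[k] w ≠ u := fun y' h k =>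
    kir_noret hTFA X.D.tree (X.P.fN y') hadj h k
  have ch2 : ∀ y' : X.V, X.P.N y' w = u → ∀ k : ℕ, (X.P.N y')^[k] u ≠ w := fun y' h k =>
    kir_noret hTFA X.D.tree (X.P.fN y') hadj.symm h k
  have L1 : ∀ (x' y' z' : X.V) (k : ℕ),
      kirL (⟨x', y', z', (X.P.N y')^[k] w, true⟩ : Band G X) ≠ (u, w) := by
    intro x' y' z' k h
    have h' : ((X.P.N y')^[k] w, X.P.N y' ((X.P.N y')^[k] w)) = (u, w) := h
    obtain ⟨h1, h2⟩ := Prod.ext_iff.1 h'
    have h1' : (X.P.N y')^[k] w = u := h1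
    have h2' : X.P.N y' ((X.P.N y')^[k] w) = w := h2
    rw [h1'] at h2'
    exact ch1 y' h2' k h1'
  have L2 : ∀ (x' y' z' : X.V) (k : ℕ),
      kirL (⟨x', y', z', (X.P.N y')^[k] u, false⟩ : Band G X) ≠ (u, w) := by
    intro x' y' z' k h
    have h' : (X.P.N y' ((X.P.N y')^[k] u), (X.P.N y')^[k] u) = (u, w) := h
    obtain ⟨h1, h2⟩ := Prod.ext_iff.1 h'
    have h1' : X.P.N y' ((X.P.N y')^[k] u) = u := h1
    have h2' : (X.P.N y')^[k] u = w := h2
    rw [h2'] at h1'
    exact ch2 y' h1' k h2'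
  constructor
  · have hdiv := hb3 (.inl (x, y, u)) ⟨hf, hOn1, hu⟩
    unfold divR at hdiv
    obtain ⟨s, hs0, hs⟩ := kir_sgn (X := X) u w
    have e1 := kir_sum b ζ s {B | B ∈ X.BN ∧ X.sS B = some (.inl (x, y, u))}
      (fun z => ⟨x, y, z, u, true⟩) (fun z z' h => by injection h) (by
        intro z hz
        refine ⟨⟨hz, kir_segN_hon hf.2.1 hu⟩, ?_⟩
        refine kir_out hTFA hHON X hb1 hdel x y z u true hz ?_ ?_ s ?_
        · show (u, X.P.N y u) = (u, w)
          rw [hyu]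
        · rw [hyu]
          exact L1 x y z
        · rw [hyu]
          exact hs) (by
        rintro B ⟨hB, hB2⟩
        refine ⟨hB, ?_⟩
        rcases kir_sS hB2 with h | h
        · exact Or.inl ⟨B.z, h⟩
        · right
          rw [h]
          exact kir_van hTFA hHON X hb1 hdel y x B.z u false (L2 _ _ _))
    have e2 := kir_sum b ζ s {B | B ∈ X.BN ∧ X.tS B = some (.inl (x, y, u))}
      (fun z => ⟨x, z, y, u, true⟩) (fun z z' h => by injection h) (by
        intro z hz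
        refine ⟨⟨hz, kir_segN_hon hf.2.1 hu⟩, ?_⟩
        have hzu : X.P.N z u = w := by
          have : X.P.N z u = X.P.N y u := hz.2.1
          rw [this, hyu]
        refine kir_out hTFA hHON X hb1 hdel x z y u true hz ?_ ?_ s ?_
        · show (u, X.P.N z u) = (u, w)
          rw [hzu]
        · rw [hzu]
          exact L1 x z y
        · rw [hzu]
          exact hs) (by
        rintro B ⟨hB, hB2⟩
        refine ⟨hB, ?_⟩
        rcases kir_tS hB2 with h | h
        · exact Or.inl ⟨B.y, h⟩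
        · right
          rw [h]
          exact kir_van hTFA hHON X hb1 hdel y B.y x u false (L2 _ _ _))
    have h3 : s * (∑ᶠ (z) (_ : (⟨x, y, z, u, true⟩ : Band G X) ∈ X.BN), ζ ⟨x, y, z, u, true⟩) -
      s * (∑ᶠ (z) (_ : (⟨x, z, y, u, true⟩ : Band G X) ∈ X.BN), ζ ⟨x, z, y, u, true⟩) = 0 := by
      rw [← e1, ← e2]
      exact hdiv
    rw [← mul_sub] at h3
    exact (mul_eq_zero.1 h3).resolve_left hs0
  · have hdiv := hb3 (.inl (x, y, w)) ⟨hf, hOn2, hw⟩
    unfold divR at hdiv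
    obtain ⟨s, hs0, hs⟩ := kir_sgn (X := X) w u
    have e1 := kir_sum b ζ s {B | B ∈ X.BN ∧ X.sS B = some (.inl (x, y, w))}
      (fun z => ⟨y, x, z, w, false⟩) (fun z z' h => by injection h) (by
        intro z hz
        refine ⟨⟨hz, kir_segN_hon hf.2.1 hw⟩, ?_⟩
        refine kir_out hTFA hHON X hb1 hdel y x z w false hz ?_ ?_ s ?_
        · show (X.P.N x w, w) = (u, w)
          rw [hxw]
        · rw [hxw]
          exact L2 y x z
        · rw [hxw]
          exact hs) (by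
        rintro B ⟨hB, hB2⟩
        refine ⟨hB, ?_⟩
        rcases kir_sS hB2 with h | h
        · right
          rw [h]
          exact kir_van hTFA hHON X hb1 hdel x y B.z w true (L1 _ _ _)
        · exact Or.inl ⟨B.z, h⟩)
    have e2 := kir_sum b ζ s {B | B ∈ X.BN ∧ X.tS B = some (.inl (x, y, w))}
      (fun z => ⟨y, z, x, w, false⟩) (fun z z' h => by injection h) (by
        intro z hz
        refine ⟨⟨hz, kir_segN_hon hf.2.1 hw⟩, ?_⟩
        have hzw : X.P.N z w = u := by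
          have : X.P.N z w = X.P.N x w := hz.2.1
          rw [this, hxw]
        refine kir_out hTFA hHON X hb1 hdel y z x w false hz ?_ ?_ s ?_
        · show (X.P.N z w, w) = (u, w)
          rw [hzw]
        · rw [hzw]
          exact L2 y z x
        · rw [hzw]
          exact hs) (by
        rintro B ⟨hB, hB2⟩
        refine ⟨hB, ?_⟩
        rcases kir_tS hB2 with h | h
        · right
          rw [h]
          exact kir_van hTFA hHON X hb1 hdel x B.y y w true (L1 _ _ _)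
        · exact Or.inl ⟨B.y, h⟩)
    have h3 : s * (∑ᶠ (z) (_ : (⟨y, x, z, w, false⟩ : Band G X) ∈ X.BN),
        ζ ⟨y, x, z, w, false⟩) -
      s * (∑ᶠ (z) (_ : (⟨y, z, x, w, false⟩ : Band G X) ∈ X.BN), ζ ⟨y, z, x, w, false⟩) = 0 := by
      rw [← e1, ← e2]
      exact hdiv
    rw [← mul_sub] at h3
    exact (mul_eq_zero.1 h3).resolve_left hs0

end Pool.Agent.Helper93.HZ
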